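import Pool.Agent.H37.CSZ.Stmts

set_option autoImplicit false

namespace Pool.CND

open Matrix

section

variable {F : Type} [Field F] [CharP F 2] {φ : F →+* F}

theorem zu4_mul (a b : Sz φ) (i j : Fin 4) :
    (a * b).1.1 i j = ∑ l, a.1.1 i l * b.1.1 l j := rfl

theorem zu4_bmul (a b : Sz φ) (ha : a.1.1 1 0 = 0 ∧ a.1.1 2 0 = 0 ∧ a.1.1 3 0 = 0)
    (hb : b.1.1 1 0 = 0 ∧ b.1.1 2 0 = 0 ∧ b.1.1 3 0 = 0) :
    ((a * b).1.1 1 0 = 0 ∧ (a * b).1.1 2 0 = 0 ∧ (a * b).1.1 3 0 = 0) ∧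
      (a * b).1.1 0 0 = a.1.1 0 0 * b.1.1 0 0 := by
  obtain ⟨a1, a2, a3⟩ := ha
  obtain ⟨b1, b2, b3⟩ := hb
  refine ⟨⟨?_, ?_, ?_⟩, ?_⟩
  all_goals rw [zu4_mul, Fin.sum_univ_four]
  · rw [a1, b1, b2, b3]; ring
  · rw [a2, b1, b2, b3]; ring
  · rw [a3, b1, b2, b3]; ring
  · rw [b1, b2, b3]; ring

theorem zu4_one : ((1 : Sz φ).1.1 1 0 = 0 ∧ (1 : Sz φ).1.1 2 0 = 0 ∧ (1 : Sz φ).1.1 3 0 = 0) ∧
    (1 : Sz φ).1.1 0 0 = 1 := by
  have e : (1 : Sz φ).1.1 = (1 : Matrix (Fin 4) (Fin 4) F) := rfl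
  rw [e]
  refine ⟨⟨?_, ?_, ?_⟩, ?_⟩
  · exact Matrix.one_apply_ne (by decide)
  · exact Matrix.one_apply_ne (by decide)
  · exact Matrix.one_apply_ne (by decide)
  · exact Matrix.one_apply_eq _

theorem zu4_pow (g : Sz φ) (hg : g.1.1 1 0 = 0 ∧ g.1.1 2 0 = 0 ∧ g.1.1 3 0 = 0) (m : ℕ) :
    ((g ^ m).1.1 1 0 = 0 ∧ (g ^ m).1.1 2 0 = 0 ∧ (g ^ m).1.1 3 0 = 0) ∧
      (g ^ m).1.1 0 0 = g.1.1 0 0 ^ m := by
  induction m with
  | zero =>
    rw [pow_zero, pow_zero]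
    exact zu4_one
  | succ m ih =>
    rw [pow_succ, pow_succ]
    have h := zu4_bmul (g ^ m) g ih.1 hg
    exact ⟨h.1, by rw [h.2, ih.2]⟩

theorem zu4_sub [Finite (Sz φ)] : ∃ Q : Subgroup (Sz φ), ∀ g, g ∈ Q ↔
    (g.1.1 1 0 = 0 ∧ g.1.1 2 0 = 0 ∧ g.1.1 3 0 = 0 ∧ g.1.1 0 0 = 1) := by
  have hone : (1 : Sz φ) ∈ {g : Sz φ | g.1.1 1 0 = 0 ∧ g.1.1 2 0 = 0 ∧ g.1.1 3 0 = 0 ∧
      g.1.1 0 0 = 1} :=
    ⟨zu4_one.1.1, zu4_one.1.2.1, zu4_one.1.2.2, zu4_one.2⟩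
  refine ⟨{ carrier := {g : Sz φ | g.1.1 1 0 = 0 ∧ g.1.1 2 0 = 0 ∧ g.1.1 3 0 = 0 ∧
              g.1.1 0 0 = 1}
            mul_mem' := ?_
            one_mem' := hone
            inv_mem' := ?_ }, ?_⟩
  · intro a b ha hb
    obtain ⟨a1, a2, a3, a4⟩ := ha
    obtain ⟨b1, b2, b3, b4⟩ := hb
    have h := zu4_bmul a b ⟨a1, a2, a3⟩ ⟨b1, b2, b3⟩
    exact ⟨h.1.1, h.1.2.1, h.1.2.2, by rw [h.2, a4, b4, one_mul]⟩
  · intro x hx
    obtain ⟨x1, x2, x3, x4⟩ := hx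
    have hc : 0 < Nat.card (Sz φ) := Nat.card_pos
    have hinv : x⁻¹ = x ^ (Nat.card (Sz φ) - 1) := by
      apply inv_eq_of_mul_eq_one_right
      rw [← pow_succ', Nat.sub_add_cancel hc]
      exact pow_card_eq_one'
    have h := zu4_pow x ⟨x1, x2, x3⟩ (Nat.card (Sz φ) - 1)
    rw [← hinv] at h
    exact ⟨h.1.1, h.1.2.1, h.1.2.2, by rw [h.2, x4, one_pow]⟩
  · intro g
    exact Iff.rfl

end

theorem zu4_thm (hGDV : S_GDV) (hZU1 : S_ZU1) (hZU2 : S_ZU2) (hZU3 : S_ZU3) (hZZB : S_ZZB) :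
    S_ZU4 := by
  intro n q f k F _ _ _ _ φ hk hn hf hq hF hφ
  obtain ⟨hfin, hcard, hsyl⟩ := hZU1 n q f F φ hn hf hq hF hφ
  haveI := hfin
  obtain ⟨Q, hQ⟩ := zu4_sub (φ := φ)
  obtain ⟨hb1, hb2, hb3, hb4⟩ := hZZB n q f F φ hn hf hq hF hφ
  have hQc : Nat.card Q = q ^ 2 := by
    rw [← hb3]
    exact Nat.card_congr (Equiv.subtypeEquivRight hQ)
  have hq2 : 2 ≤ q := by
    rw [hq, pow_succ]
    have : 1 ≤ 2 ^ (2 * n) := Nat.one_le_two_pow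
    omega
  haveI : Finite F := Nat.finite_of_card_ne_zero (by rw [hF]; omega)
  haveI : Fintype F := Fintype.ofFinite F
  refine (hGDV 2 k (Sz φ) n (q - 1) Nat.prime_two hk (by omega) ?_).2
  intro W hW _
  obtain ⟨h, hh⟩ := hsyl W hW
  let c : Sz φ →* Sz φ := (MulAut.conj h).toMonoidHom
  have hca : ∀ x, c x = h * x * h⁻¹ := fun x => rfl
  have hcinj : Function.Injective c := (MulAut.conj h).injective
  have hcsurj : Function.Surjective c := (MulAut.conj h).surjective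
  let W' : Subgroup (Sz φ) := W.map c
  have hW' : ∀ w ∈ W', w.1.1 1 0 = 0 ∧ w.1.1 2 0 = 0 ∧ w.1.1 3 0 = 0 ∧ w.1.1 0 0 = 1 := by
    rintro w ⟨x, hx, rfl⟩
    exact hh x hx
  have hcard' : ∀ H : Subgroup (Sz φ), Nat.card (H.map c) = Nat.card H := fun H =>
    (Nat.card_congr (H.equivMapOfInjective c hcinj).toEquiv).symm
  have hmain := hZU2 n q f F φ hn hf hq hF hφ W' hW'
  have hmem : ∀ z ∈ W, c z ∈ W' := fun z hz => ⟨z, hz, rfl⟩
  have hne : ∀ z : Sz φ, z ≠ 1 → c z ≠ 1 := by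
    intro z hz he
    exact hz (hcinj (he.trans (map_one c).symm))
  have hsq : ∀ z : Sz φ, z ^ 2 = 1 → (c z) ^ 2 = 1 := by
    intro z hz
    rw [← map_pow, hz, map_one]
  refine ⟨?_, ?_⟩
  · intro z hz hz1 hz2 _
    obtain ⟨_, _, H', d, hH1, hH2, hH3, hd, hc⟩ := hmain (c z) (hmem z hz) (hne z hz1) (hsq z hz2)
    refine ⟨H'.comap c, d, ?_, hH2, ?_, hd, ?_⟩
    · intro x hx
      obtain ⟨w, hw, hwx⟩ := hH1 hx
      rw [← hcinj hwx]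
      exact hw
    · intro hz3
      apply hH3
      have h1 : c z ∈ (⁅H'.comap c, H'.comap c⁆).map c := ⟨z, hz3, rfl⟩
      rw [Subgroup.map_commutator] at h1
      exact Subgroup.commutator_mono (Subgroup.map_comap_le c H') (Subgroup.map_comap_le c H') h1
    · rw [← hcard' W, hc, ← hcard' (H'.comap c), Subgroup.map_comap_eq_self_of_surjective hcsurj]
  · intro g C hg hgW hCW hC hEA _ hgC _ x hx
    obtain ⟨z, hz, hz1⟩ : ∃ z ∈ C, z ≠ 1 := by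
      by_contra hcon
      push Not at hcon
      exact hC ((Subgroup.eq_bot_iff_forall C).2 hcon)
    have hz2 : z ^ 2 = 1 := hEA.1 z hz
    have hy : g * z * g⁻¹ ∈ C := hgC z hz
    have hy1 : g * z * g⁻¹ ≠ 1 := by
      intro he
      exact hz1 (conj_eq_one_iff.1 he)
    have hy2 : (g * z * g⁻¹) ^ 2 = 1 := hEA.1 _ hy
    have k1 := (hmain (c z) (hmem z (hCW hz)) (hne z hz1) (hsq z hz2)).1
    have k2 := (hmain (c (g * z * g⁻¹)) (hmem _ (hCW hy)) (hne _ hy1) (hsq _ hy2)).1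
    have j1 := hW' _ (hmem z (hCW hz))
    have j2 := hW' _ (hmem _ (hCW hy))
    have hrel : c g * c z = c (g * z * g⁻¹) * c g := by
      rw [← map_mul, ← map_mul]
      congr 1
      group
    have hB := hZU3 n q f F φ hn hf hq hF hφ (c g) (c z) (c (g * z * g⁻¹)) (by
      intro w hw
      rcases hw with hw | hw
      · rw [hw]
        exact ⟨j1.1, j1.2.1, j1.2.2.1, j1.2.2.2, k1, hne z hz1⟩
      · rw [hw]
        exact ⟨j2.1, j2.2.1, j2.2.2.1, j2.2.2.2, k2, hne _ hy1⟩) hrel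
    have hP := zu4_pow (c g) hB (q - 1)
    have h00 : (c g).1.1 0 0 ≠ 0 := (hb1 (c g) hB.1 hB.2.1 hB.2.2).2.2.2.1
    have hone : (c g).1.1 0 0 ^ (q - 1) = 1 := by
      have := FiniteField.pow_card_sub_one_eq_one ((c g).1.1 0 0) h00
      rwa [← Nat.card_eq_fintype_card, hF] at this
    have hmQ : (c g) ^ (q - 1) ∈ Q :=
      (hQ _).2 ⟨hP.1.1, hP.1.2.1, hP.1.2.2, by rw [hP.2, hone]⟩
    have ho1 : orderOf ((c g) ^ (q - 1)) ∣ q ^ 2 := by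
      rw [← hQc]
      exact Subgroup.orderOf_dvd_natCard Q hmQ
    have ho2 : orderOf ((c g) ^ (q - 1)) ∣ orderOf g := by
      have h1 := orderOf_pow_dvd (x := c g) (q - 1)
      rwa [orderOf_injective c hcinj g] at h1
    have hcop : Nat.Coprime (q ^ 2) (orderOf g) := by
      rw [hq]
      apply Nat.Coprime.pow_left
      apply Nat.Coprime.pow_left
      exact (Nat.Prime.coprime_iff_not_dvd Nat.prime_two).2 hg
    have ho : orderOf ((c g) ^ (q - 1)) = 1 := by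
      have := Nat.dvd_gcd ho1 ho2
      rw [hcop] at this
      exact Nat.dvd_one.1 this
    have hg1 : (c g) ^ (q - 1) = 1 := orderOf_eq_one_iff.1 ho
    rw [← map_pow] at hg1
    have hg2 : g ^ (q - 1) = 1 := hcinj (hg1.trans (map_one c).symm)
    rw [hg2, one_mul, mul_one]

end Pool.CND
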